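import Pool.Agent.W544.PG.Defs8
import Pool.Agent.W927.PG.Coord

/-!
# TP-CRD: coordinates adapted to a skew-symmetric Hermitian matrix with `x ^ 3 = x`
-/

open Matrix Finset Module

namespace Pool.Agent.W402.TP

open Pool.Agent.W544.PG
open Pool.Agent.W927.PG (cx cj herm cx_mul cx_one cx_transpose cj_cx cj_mul cj_cj cj_transpose
  cj_conjTranspose cj_one)

noncomputable section

/-- The frame. -/
def fr {n p q : ℕ} (E : Matrix (Fin n) (Fin p) ℂ) (F : Matrix (Fin n) (Fin q) ℝ) :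
    Matrix (Fin n) (I p q) ℂ := fromCols E (fromCols (cx F) (cj E))

lemma fr_facts {n p q : ℕ} (y : Matrix (Fin n) (Fin n) ℂ) (hy : yᴴ = y)
    (hc : cj y = -y) (E : Matrix (Fin n) (Fin p) ℂ) (F : Matrix (Fin n) (Fin q) ℝ)
    (hE : Eᴴ * E = 1) (hyE : y * E = E) (hF : Fᵀ * F = 1) (hyF : y * cx F = 0) :
    (fr E F)ᴴ * fr E F = 1 ∧ y * fr E F = fr E F * x0 p q ∧
      (fr E F)ᵀ * fr E F = B0 p q := by
  have hyc : y * cj E = -cj E := by
    have := congrArg cj hyE
    rw [cj_mul, hc, Matrix.neg_mul] at this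
    rw [← neg_eq_iff_eq_neg]
    exact this
  -- orthogonality
  have o1 : Eᴴ * cj E = 0 := by
    have h1 : Eᴴ * (y * cj E) = Eᴴ * cj E := by
      rw [← Matrix.mul_assoc]
      congr 1
      rw [← hy, ← conjTranspose_mul, hyE]
    rw [hyc, Matrix.mul_neg] at h1
    have h2 : (2 : ℂ) • (Eᴴ * cj E) = 0 := by
      rw [two_smul]
      nth_rewrite 1 [← h1]
      exact neg_add_cancel _
    exact (smul_eq_zero.1 h2).resolve_left two_ne_zero
  have o2 : Eᴴ * cx F = 0 := by
    have h1 : Eᴴ * (y * cx F) = Eᴴ * cx F := by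
      rw [← Matrix.mul_assoc]
      congr 1
      rw [← hy, ← conjTranspose_mul, hyE]
    rw [← h1, hyF, Matrix.mul_zero]
  have cjz : ∀ {a b : Type} (A : Matrix a b ℂ), A = 0 → cj A = 0 := by
    intro a b A h
    rw [h]
    ext i j
    simp [cj]
  have cjH : ∀ {a b : Type} (A : Matrix a b ℂ), cj (Aᴴ) = Aᵀ := by
    intro a b A
    ext i j
    simp [cj]
  have cjT : ∀ {a b : Type} (A : Matrix a b ℂ), (cj A)ᵀ = Aᴴ := fun A => cj_transpose A
  have hFF : (cx F)ᵀ * cx F = 1 := by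
    rw [← cx_transpose, ← cx_mul, hF, cx_one]
  have hFH : (cx F)ᴴ = (cx F)ᵀ := by
    rw [← cj_transpose, cj_cx]
  -- conjugates
  have o1' : Eᵀ * E = 0 := by
    have := cjz _ o1
    rwa [cj_mul, cjH, cj_cj] at this
  have o2' : Eᵀ * cx F = 0 := by
    have := cjz _ o2
    rwa [cj_mul, cjH, cj_cx] at this
  have hE' : Eᵀ * cj E = 1 := by
    have := congrArg cj hE
    rwa [cj_mul, cjH, cj_one] at this
  have o3 : (cx F)ᵀ * E = 0 := by
    have := congrArg Matrix.transpose o2'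
    rwa [transpose_mul, transpose_transpose, transpose_zero] at this
  have o3' : (cx F)ᵀ * cj E = 0 := by
    have := congrArg Matrix.transpose o2
    rw [transpose_mul, transpose_zero] at this
    rw [← this]
    congr 1
  refine ⟨?_, ?_, ?_⟩
  · have p1 : (cx F)ᴴ * E = 0 := by rw [hFH, o3]
    have p2 : (cx F)ᴴ * cj E = 0 := by rw [hFH, o3']
    have p3 : (cx F)ᴴ * cx F = 1 := by rw [hFH, hFF]
    have p4 : (cj E)ᴴ * E = 0 := by rw [cj_conjTranspose, o1']
    have p5 : (cj E)ᴴ * cx F = 0 := by rw [cj_conjTranspose, o2']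
    have p6 : (cj E)ᴴ * cj E = 1 := by rw [cj_conjTranspose, hE']
    rw [fr, conjTranspose_fromCols_eq_fromRows_conjTranspose, fromRows_mul_fromCols,
      conjTranspose_fromCols_eq_fromRows_conjTranspose, fromRows_mul_fromCols, mul_fromCols,
      fromRows_mul, hE, p1, p2, p3, p4, p5, p6, o2, o1, fromCols_zero, fromRows_zero,
      fromBlocks_one, fromBlocks_one]
  · rw [fr, mul_fromCols, mul_fromCols, x0, big0, fromCols_mul_fromBlocks,
      fromCols_mul_fromBlocks, hyE, hyc, hyF]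
    simp only [Matrix.mul_one, Matrix.mul_zero, add_zero, zero_add, transpose_one,
      Matrix.mul_neg]
  · have q5 : (cj E)ᵀ * E = 1 := by rw [cjT, hE]
    have q6 : (cj E)ᵀ * cx F = 0 := by rw [cjT, o2]
    have q7 : (cj E)ᵀ * cj E = 0 := by rw [cjT, o1]
    rw [fr, transpose_fromCols,
      transpose_fromCols, fromRows_mul_fromCols, fromRows_mul_fromCols, mul_fromCols, fromRows_mul,
      o1', hE', hFF, o2', o3, o3', q5, q6, q7, B0]

theorem crd : S_crd := by
  intro n p q x hxT hxH hx3 htr hn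
  have hxc : cj x = -x := by
    have h1 : (cj x)ᵀ = xᴴ := cj_transpose x
    have h2 := congrArg Matrix.transpose h1
    rw [transpose_transpose, hxH, hxT] at h2
    exact h2
  obtain ⟨E, F, hE, hyE, hF, hyF⟩ := herm (q := q) x hxH hx3 hxc htr hn
  obtain ⟨k1, k2, k3⟩ := fr_facts x hxH hxc E F hE hyE hF hyF
  have hcard : Fintype.card (Fin n) = Fintype.card (I p q) := by
    simp only [Fintype.card_fin, Fintype.card_sum]
    omega
  exact ⟨fr E F, k3, k1, (Matrix.mul_eq_one_comm_of_card_eq (Fin n) (I p q) ℂ hcard).2 k1, k2⟩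

end

end Pool.Agent.W402.TP
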